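import Pool.Agent.R605.M6
import Pool.Agent.R605.M8

set_option autoImplicit false

/-! # MP_545343_nt, Q1: the equations (E1), (E2), (E3) have no solutions

The proof: elementary congruence and lifting-the-exponent arguments show that in a solution one exponent
is exponentially large compared with the heights of the bases, and a lower bound for a linear form in two
logarithms (interpolation determinants with a zero estimate, `Pool.Agent.R605.Pillai.core`) bounds the
exponent from above.  The finitely many remaining cases are excluded by local conditions. -/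

namespace Pool.Agent.Results.MP_545343_nt.NoSolutions

open Pool.Agent.R605.Pillai

/-- (E1), (E2) and (E3) have no solutions in integers `≥ 2` with `x ≠ y`. -/
theorem result :
    (∀ d x y s t : ℕ, 2 ≤ d → 2 ≤ x → 2 ≤ y → 2 ≤ s → 2 ≤ t → x ≠ y →
      (((d : ℤ) ^ x + 1) ^ s + 1) ^ t - (d : ℤ) ^ y ≠ 2) ∧
    (∀ d x y s t : ℕ, 2 ≤ d → 2 ≤ x → 2 ≤ y → 2 ≤ s → 2 ≤ t → x ≠ y →
      (d : ℤ) ^ y - (((d : ℤ) ^ x - 1) ^ s - 1) ^ t ≠ 2) ∧
    (∀ d x y s m : ℕ, 2 ≤ d → 2 ≤ x → 2 ≤ y → 2 ≤ s → 2 ≤ m → x ≠ y →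
      ((d : ℤ) ^ x + 1) ^ s - ((d : ℤ) ^ y - 1) ^ m ≠ 2) :=
  ⟨fun d x y s t hd hx hy hs ht _ => E1 d x y s t hd hx hy hs ht,
   fun d x y s t hd hx hy hs ht _ => E2_none d x y s t hd hx hy hs ht,
   fun d x y s m hd hx hy hs hm hne => E3_none d x y s m hd hx hy hs hm hne⟩

end Pool.Agent.Results.MP_545343_nt.NoSolutions
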